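import Pool.Agent.K1H82.LQ.Gq
import Pool.Agent.Y723.QT.Crv
import Pool.Agent.Y676.MainA

/-!
# The curves over the quadratic fields
-/

set_option autoImplicit false

namespace Pool.Agent.K1H82.LQ

open WeierstrassCurve
open Pool.Agent.TH841.NF
open Pool.Agent.W307.RT (Sh)
open Pool.Agent.Y700 (VR)
open Pool.Agent.Y682 (MP)
open Pool.Agent.Y723.QT (Kl F2 SqrtF mpE)

/-- the first coefficient of the short model -/
def cA (a b : ℤ) : ℤ := -27 * (a ^ 2 - a * b + b ^ 2)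

/-- the second coefficient of the short model -/
def cB (a b : ℤ) : ℤ := 27 * ((a + b) * (2 * a - b) * (2 * b - a))

lemma c_disc {a b : ℤ} (ha : a ≠ 0) (hb : b ≠ 0) (hab : a ≠ b) :
    4 * cA a b ^ 3 + 27 * cB a b ^ 2 ≠ 0 := by
  have e : 4 * cA a b ^ 3 + 27 * cB a b ^ 2 = -(729 * (a * b * (a - b))) ^ 2 := by
    unfold cA cB
    ring
  rw [e, neg_ne_zero]
  exact pow_ne_zero 2 (mul_ne_zero (by norm_num) (mul_ne_zero (mul_ne_zero ha hb)
    (sub_ne_zero.2 hab)))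

lemma c_root (a b : ℤ) : (-3 * (a + b)) ^ 3 + cA a b * (-3 * (a + b)) + cB a b = 0 := by
  unfold cA cB
  ring

lemma c_tw (D a b : ℤ) : D ^ 2 * cA a b = cA (D * a) (D * b) ∧
    D ^ 3 * cB a b = cB (D * a) (D * b) := by
  unfold cA cB
  constructor <;> ring

/-- the curve `y² = x (x - a) (x - b)` over `K` -/
def EK (K : Type) [Field K] (a b : ℤ) : WeierstrassCurve K := ⟨0, -((a : K) + b), 0, (a : K) * b, 0⟩

lemma vr_EK (K : Type) [Field K] [CharZero K] (a b : ℤ) :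
    VR (EF (cA a b) (cB a b) K) (EK K a b) 3 (-(3 * ((a : K) + b))) 0 0 where
  u0 := by norm_num
  e1 := by simp [EF, EK]
  e2 := by simp only [EF, EK]; ring
  e3 := by simp [EF, EK]
  e4 := by simp only [EF, EK, cA]; push_cast; ring
  e6 := by simp only [EF, EK, cA, cB]; push_cast; ring

lemma EK_disc (K : Type) [Field K] [CharZero K] {a b : ℤ} (ha : a ≠ 0) (hb : b ≠ 0)
    (hab : a ≠ b) : (EK K a b).Δ ≠ 0 := by
  have e : (EK K a b).Δ = 16 * ((a : K) * b * (a - b)) ^ 2 := by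
    simp only [EK, WeierstrassCurve.Δ, WeierstrassCurve.b₂, WeierstrassCurve.b₄,
      WeierstrassCurve.b₆, WeierstrassCurve.b₈]
    ring
  rw [e]
  refine mul_ne_zero (by norm_num) (pow_ne_zero 2 (mul_ne_zero (mul_ne_zero ?_ ?_) ?_))
  · exact_mod_cast ha
  · exact_mod_cast hb
  · rw [sub_ne_zero]
    exact_mod_cast hab

/-- the short model of a trivial curve is trivial -/
lemma tr_short {a b : ℤ} (h : Pool.Agent.K1H97.WA.Tr (a : ℚ) (b : ℚ)) :
    Pool.Agent.Y723.QT.Tr (cA a b) (cB a b) := by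
  have ha : a ≠ 0 := by exact_mod_cast h.ha
  have hb : b ≠ 0 := by exact_mod_cast h.hb
  have hab : a ≠ b := by exact_mod_cast h.hab
  have hv : VR (Sh (cA a b) (cB a b)) (EK ℚ a b) 3 (-(3 * ((a : ℚ) + b))) 0 0 := vr_EK ℚ a b
  have hD := EK_disc ℚ ha hb hab
  have hE : Pool.Agent.K1H97.WA.E (a : ℚ) (b : ℚ) = EK ℚ a b := rfl
  have hfin := h.fin
  have hsha := h.sha
  rw [hE] at hfin hsha
  constructor
  · have h1 : Finite (Sh (cA a b) (cB a b)).toAffine.Point :=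
      Finite.of_equiv _ (hv.equiv hD).toEquiv
    unfold Pool.Agent.TH841.SH.D.rk
    exact Module.finrank_eq_zero_iff_isTorsion.2 (isAddTorsion_iff_isTorsion_int.1
      (isAddTorsion_of_finite (G := (Sh (cA a b) (cB a b)).toAffine.Point)))
  · have h1 := Pool.Agent.K1H97.WA.sha_vr hv hD hsha
    intro k
    induction k with
    | zero => intro x hx; exact hx
    | succ k ih =>
      intro x hx
      apply ih
      apply h1
      rw [← two_nsmul, ← mul_smul, ← pow_succ']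
      exact hx

/-- the curve has finitely many points over `K`, the elements of 2-power order of `Ш` form a finite
set, and they are killed by two -/
def Settled {K : Type} [Field K] [NumberField K] (W : WeierstrassCurve K) : Prop :=
  Finite W.toAffine.Point ∧ {x : D.Sha W | ∃ k : ℕ, (2 ^ k : ℕ) • x = 0}.Finite ∧
    ∀ (k : ℕ) (x : D.Sha W), (2 ^ k : ℕ) • x = 0 → 2 • x = 0

lemma fin_of {K : Type} [Field K] [NumberField K] {A B : ℤ} (hD : 4 * A ^ 3 + 27 * B ^ 2 ≠ 0)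
    {e : ℤ} (he : e ^ 3 + A * e + B = 0) (h : D.rk (EF A B K) = 0) :
    Finite (EF A B K).toAffine.Point := by
  have h1 : Module.Finite ℤ (MP (EF A B K)) := Pool.Agent.Y723.QT.fg_EF hD he
  have h2 : Module.finrank ℤ (MP (EF A B K)) = 0 := h
  have ht : Module.IsTorsion ℤ (MP (EF A B K)) := Module.finrank_eq_zero_iff_isTorsion.1 h2
  have hf : Finite (MP (EF A B K)) := Module.finite_of_fg_torsion _ ht
  exact hf

lemma settled_of {K : Type} [Field K] [NumberField K] {A B : ℤ} (hD : 4 * A ^ 3 + 27 * B ^ 2 ≠ 0)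
    {e : ℤ} (he : e ^ 3 + A * e + B = 0)
    (h : D.rk (EF A B K) = 0 ∧ F2 (D.Sha (EF A B K)) ∧ Kl (D.Sha (EF A B K)) 1) :
    Settled (EF A B K) :=
  ⟨fin_of hD he h.1, h.2.1, fun k x hx => by have := h.2.2 k x hx; rwa [pow_one] at this⟩

lemma settled_vr {K : Type} [Field K] [NumberField K] {W W' : WeierstrassCurve K} {u r s t : K}
    (hv : VR W W' u r s t) (hD : W'.Δ ≠ 0) (h : Settled W) : Settled W' := by
  classical
  obtain ⟨h1, h2, h3⟩ := h
  obtain ⟨I⟩ : Nonempty (D.Sha W' ≃+ D.Sha W) := ⟨(Pool.Agent.Y655.XT.isoVR hv hD).sha⟩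
  refine ⟨Finite.of_equiv _ (hv.equiv hD).symm.toEquiv, ?_, fun k x hx => ?_⟩
  · have h4 : {x : D.Sha W' | ∃ k : ℕ, (2 ^ k : ℕ) • x = 0} =
        I ⁻¹' {x : D.Sha W | ∃ k : ℕ, (2 ^ k : ℕ) • x = 0} := by
      ext x
      simp only [Set.mem_setOf_eq, Set.mem_preimage]
      constructor
      · rintro ⟨k, hk⟩
        exact ⟨k, by rw [← map_nsmul, hk, map_zero]⟩
      · rintro ⟨k, hk⟩
        exact ⟨k, I.injective (by rw [map_nsmul, hk, map_zero])⟩
    rw [h4]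
    exact h2.preimage I.injective.injOn
  · apply I.injective
    rw [map_nsmul, map_zero]
    exact h3 k (I x) (by rw [← map_nsmul, hx, map_zero])

/-- **two trivial twists of the curve `y² = x (x - a) (x - b)`** -/
theorem pair_K {a b : ℤ} (ha : a ≠ 0) (hb : b ≠ 0) (hab : a ≠ b) {q m : ℤ} (hq : q ≠ 0)
    (hm : m ≠ 0) (h1 : Pool.Agent.K1H97.WA.Tr ((q * a : ℤ) : ℚ) ((q * b : ℤ) : ℚ))
    (h2 : Pool.Agent.K1H97.WA.Tr ((m * a : ℤ) : ℚ) ((m * b : ℤ) : ℚ)) (K : Type) [Field K]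
    [NumberField K] (hK : SqrtF (q * m) K) : Settled (EK K (q * a) (q * b)) := by
  have t1 := tr_short h1
  have t2 := tr_short h2
  rw [← (c_tw q a b).1, ← (c_tw q a b).2] at t1
  rw [← (c_tw m a b).1, ← (c_tw m a b).2] at t2
  have h3 := Pool.Agent.Y723.QT.pairs (c_disc ha hb hab) (c_root a b) hq hm t1 t2 K hK
  rw [(c_tw q a b).1, (c_tw q a b).2] at h3
  have hqa : q * a ≠ 0 := mul_ne_zero hq ha
  have hqb : q * b ≠ 0 := mul_ne_zero hq hb
  have hqab : q * a ≠ q * b := fun h => hab (mul_left_cancel₀ hq h)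
  exact settled_vr (vr_EK K _ _) (EK_disc K hqa hqb hqab)
    (settled_of (c_disc hqa hqb hqab) (c_root _ _) h3)

/-- the twist by a good prime, for the pairs -/
lemma Gp.trE {Y : ℕ} (hY : 2 ≤ Y) {A B : ℤ} {q : ℕ} (h : Gp Y A B q) :
    Pool.Agent.K1H97.WA.Tr (((q : ℤ) * A : ℤ) : ℚ) (((q : ℤ) * B : ℤ) : ℚ) := by
  obtain ⟨h1, s, h2, h3⟩ := h
  exact Pool.Agent.K1H97.WA.tw_E hY h1 h2 h3

/-- the twist by a good prime, for the curves -/
lemma Gp.trS {Y : ℕ} (hY : 2 ≤ Y) {c : ℤ × ℤ} {e1 e2 e3 : ℤ}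
    (hr : ∀ x : ℤ, x ^ 3 + c.1 * x + c.2 = (x - e1) * (x - e2) * (x - e3)) {d : ℤ} {q : ℕ}
    (h : Gp Y (d * (e2 - e1)) (d * (e3 - e1)) q) :
    Pool.Agent.Y723.QT.Tr ((d * q) ^ 2 * c.1) ((d * q) ^ 3 * c.2) := by
  obtain ⟨h1, s, h2, h3⟩ := h
  have hr' := Pool.Agent.Y676.roots_tw hr d
  have i1 : d * (e2 - e1) = d * e2 - d * e1 := by ring
  have i2 : d * (e3 - e1) = d * e3 - d * e1 := by ring
  rw [i1, i2] at h1 h2 h3
  have h4 := Pool.Agent.Y676.tw_one (c := (d ^ 2 * c.1, d ^ 3 * c.2)) hr' hY h1 h2 h3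
  have e1 : (d * q) ^ 2 * c.1 = (q : ℤ) ^ 2 * (d ^ 2 * c.1) := by ring
  have e2 : (d * q) ^ 3 * c.2 = (q : ℤ) ^ 3 * (d ^ 3 * c.2) := by ring
  rw [e1, e2]
  refine ⟨h4.1, fun k x hx => ?_⟩
  have h5 : Subsingleton (Pool.Agent.TH841.SH.D.ShaTor (Sh
      ((q : ℤ) ^ 2 * (d ^ 2 * c.1)) ((q : ℤ) ^ 3 * (d ^ 3 * c.2))) (2 ^ k)) := h4.2 k
  have h6 := @Subsingleton.elim _ h5 ⟨x, hx⟩ ⟨0, smul_zero _⟩
  rw [pow_zero, one_smul]
  exact congrArg Subtype.val h6

end Pool.Agent.K1H82.LQ
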