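import Pool.Agent.K1H82.LQ.Gq
import Pool.Agent.K1H97.CU.Main

/-!
# Infinite sets of primes, for the small twists of a typical pair
-/

set_option autoImplicit false

namespace Pool.Agent.K1H82.LQ

open Finset
open Pool.Agent.Y676
open Pool.Agent.TH841.SH (SelG LocC IsR)
open Pool.Agent.W307.RT (Sh)
open Pool.Agent.K1H97.WA (Tr E isR_E fin_E)
open Pool.Agent.K1H97.CU

/-- **The twist by an odd number of good primes.** -/
theorem tw_cubeE {A B : ℤ} {Y : ℕ} (hY : 2 ≤ Y) (h1 : Ty1 Y A B) {s : ℕ → Bool}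
    (hs : ∀ e, InS Y A B s e → e = (1, 1)) {xs : ℤ} {T : Finset ℕ} (hT : GoodT Y A B s xs T) :
    Tr ((pT T * A : ℤ) : ℚ) ((pT T * B : ℤ) : ℚ) := by
  have hTp : ∀ q ∈ T, q.Prime := fun q hq => (hT.gd q hq).pr
  obtain ⟨q, hq⟩ := card_pos.1 hT.od.pos
  have hqp := hTp q hq
  have hqi : Prime (q : ℤ) := Nat.prime_iff_prime_int.1 hqp
  have hnd := (hT.gd q hq).nd
  have dA : ¬ (q : ℤ) ∣ A := fun h => hnd ((h.mul_right _).mul_right _)
  have dB : ¬ (q : ℤ) ∣ B := fun h => hnd ((h.mul_left _).mul_right _)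
  have hN : A * B * (A - B) ≠ 0 := fun h => hnd (by rw [h]; exact dvd_zero _)
  have hA0 : A ≠ 0 := left_ne_zero_of_mul (left_ne_zero_of_mul hN)
  have hB0 : B ≠ 0 := right_ne_zero_of_mul (left_ne_zero_of_mul hN)
  have hAB : A ≠ B := sub_ne_zero.1 (right_ne_zero_of_mul hN)
  have hd0 := pT_ne hTp
  have hd := pT_erase hq
  have nd' : ¬ (q : ℤ) ∣ pT (T.erase q) :=
    nd_pT (fun r hr => hTp r (mem_of_mem_erase hr)) hqp (notMem_erase q T)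
  have nd : ∀ {u v : ℤ}, ¬ (q : ℤ) ∣ u → ¬ (q : ℤ) ∣ v → ¬ (q : ℤ) ∣ u * v := by
    intro u v hu hv h
    exact (hqi.dvd_or_dvd h).elim hu hv
  have hne : pT T * A ≠ pT T * B := fun h => hAB (mul_left_cancel₀ hd0 h)
  have hsub : SelG 0 (pT T * A) (pT T * B) ⊆ {e | InSel (pT T * A) (pT T * B) e} := by
    rintro e ⟨k1, k2, k3, k4⟩
    have hl : ∀ {K : Type} [Field K], LocC K 0 (pT T * A) (pT T * B) e.1 e.2 →
        Pool.Agent.W307.SE.Loc K (pT T * A) (pT T * B) e.1 e.2 := by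
      intro K _ hK
      have := loc_of_locC hK
      rwa [sub_zero, sub_zero] at this
    exact ⟨k1, k2, hl k3, fun p _ => hl (k4 p)⟩
  obtain ⟨hfin, hcard⟩ := selT_card hY h1 hs hT
  obtain ⟨g1, g2⟩ := sha4 (E ((pT T * A : ℤ) : ℚ) ((pT T * B : ℤ) : ℚ)) 0 (pT T * A) (pT T * B)
    (isR_E _ _) (mul_ne_zero hd0 hA0).symm (mul_ne_zero hd0 hB0).symm hne
    (hfin.subset hsub) ((Set.ncard_le_ncard hsub hfin).trans hcard)
    (by
      have e : ((0 : ℤ) : ℚ) - ((pT T * A : ℤ) : ℚ) =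
          ((q * (-(pT (T.erase q) * A)) : ℤ) : ℚ) := by
        rw [hd]; push_cast; ring
      rw [e]
      exact nsq hqp (fun h => nd nd' dA ((dvd_neg).1 h)))
    (by
      have e : ((pT T * A : ℤ) : ℚ) - ((0 : ℤ) : ℚ) = ((q * (pT (T.erase q) * A) : ℤ) : ℚ) := by
        rw [hd]; push_cast; ring
      rw [e]
      exact nsq hqp (nd nd' dA))
    (by
      have e : ((pT T * B : ℤ) : ℚ) - ((0 : ℤ) : ℚ) = ((q * (pT (T.erase q) * B) : ℤ) : ℚ) := by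
        rw [hd]; push_cast; ring
      rw [e]
      exact nsq hqp (nd nd' dB))
  refine ⟨by exact_mod_cast mul_ne_zero hd0 hA0, by exact_mod_cast mul_ne_zero hd0 hB0,
    by exact_mod_cast hne, fin_E hne (mul_ne_zero hd0 hA0) (mul_ne_zero hd0 hB0) g1,
    fun x hx => ?_⟩
  have h3 := sub_tor g2 1
  have h5 : (2 ^ 1) • x = 0 := by
    rw [pow_one, two_nsmul]
    exact hx
  exact congrArg Subtype.val (h3.elim ⟨x, h5⟩ ⟨0, smul_zero _⟩)

/-- **Every good prime is in an infinite set of primes.** -/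
theorem Gp.cube {Y : ℕ} (hY : 2 ≤ Y) {A B : ℤ} {q : ℕ} (h : Gp Y A B q) :
    ∃ S : Set ℕ, S.Infinite ∧ q ∈ S ∧ (∀ r ∈ S, r.Prime) ∧
      ∀ T : Finset ℕ, (T : Set ℕ) ⊆ S → Odd T.card →
        (0 < pT T ∧ ∀ (p : ℕ) [Fact p.Prime], p ≤ Y → IsSquare ((pT T : ℤ) : ℚ_[p])) ∧
        Tr ((pT T * A : ℤ) : ℚ) ((pT T * B : ℤ) : ℚ) := by
  obtain ⟨h1, s, h2, h3⟩ := h
  obtain ⟨x, 𝒬, i1, i2, i3⟩ := exists_inf h3
  refine ⟨𝒬, i1, i2, fun r hr => ?_, fun T hT hod => ?_⟩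
  · have h := i3 {r} (by simpa using hr) (by simp)
    exact (h.gd r (mem_singleton_self r)).pr
  · have hG := i3 T hT hod
    refine ⟨⟨pT_pos fun r hr => (hG.gd r hr).pr, fun p hp hpY => ?_⟩, tw_cubeE hY h1 h2 hG⟩
    exact isSquare_pT T fun r hr => goodq_sq (hG.gd r hr) p hpY

/-- the same for the curves -/
theorem Gp.cubeS {Y : ℕ} (hY : 2 ≤ Y) {c : ℤ × ℤ} {e1 e2 e3 : ℤ}
    (hr : ∀ x : ℤ, x ^ 3 + c.1 * x + c.2 = (x - e1) * (x - e2) * (x - e3)) {d : ℤ} {q : ℕ}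
    (h : Gp Y (d * (e2 - e1)) (d * (e3 - e1)) q) :
    ∃ S : Set ℕ, S.Infinite ∧ q ∈ S ∧ (∀ r ∈ S, r.Prime) ∧
      ∀ T : Finset ℕ, (T : Set ℕ) ⊆ S → Odd T.card →
        (0 < pT T ∧ ∀ (p : ℕ) [Fact p.Prime], p ≤ Y → IsSquare ((pT T : ℤ) : ℚ_[p])) ∧
        Tv (Sh ((d * pT T) ^ 2 * c.1) ((d * pT T) ^ 3 * c.2)) := by
  obtain ⟨h1, s, h2, h3⟩ := h
  obtain ⟨x, 𝒬, i1, i2, i3⟩ := exists_inf h3
  refine ⟨𝒬, i1, i2, fun r hr => ?_, fun T hT hod => ?_⟩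
  · have h := i3 {r} (by simpa using hr) (by simp)
    exact (h.gd r (mem_singleton_self r)).pr
  · have hG := i3 T hT hod
    refine ⟨⟨pT_pos fun r hr => (hG.gd r hr).pr, fun p hp hpY => ?_⟩, ?_⟩
    · exact isSquare_pT T fun r hr => goodq_sq (hG.gd r hr) p hpY
    · have hr' := roots_tw hr d
      have j1 : d * (e2 - e1) = d * e2 - d * e1 := by ring
      have j2 : d * (e3 - e1) = d * e3 - d * e1 := by ring
      rw [j1, j2] at h1 h2 hG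
      have h4 := tw_cube' (c := (d ^ 2 * c.1, d ^ 3 * c.2)) hr' hY h1 h2 hG
      have e1 : (d * pT T) ^ 2 * c.1 = (pT T) ^ 2 * (d ^ 2 * c.1) := by ring
      have e2 : (d * pT T) ^ 3 * c.2 = (pT T) ^ 3 * (d ^ 3 * c.2) := by ring
      rw [e1, e2]
      exact h4

end Pool.Agent.K1H82.LQ
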