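import Pool.Agent.K1H82.LQ.Rep
import Pool.Agent.K1H97.WA.Main
import Pool.Agent.K1H97.CU.Dir

/-!
# Good primes for the small twists of a typical pair
-/

set_option autoImplicit false

namespace Pool.Agent.K1H82.LQ

open Finset
open Pool.Agent.Y676
open Pool.Agent.K1H97.WA (one1 mem_TB_one pq_one pq_pr)
open Pool.Agent.K1H97.CU (MM good_mod goodq_sq)

lemma nd_of_le {Y l : ℕ} (hY : Y < l) {d : ℤ} (hd : d ≠ 0) (hdY : d.natAbs ≤ Y) :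
    ¬ (l : ℤ) ∣ d := by
  intro h
  have h1 : l ∣ d.natAbs := Int.natCast_dvd.1 h
  have h2 := Nat.le_of_dvd (Int.natAbs_pos.2 hd) h1
  omega

lemma ty1_sc {Y : ℕ} {A B d : ℤ} (hd : d ≠ 0) (hdY : d.natAbs ≤ Y) (h : Ty1 Y A B) :
    Ty1 Y (d * A) (d * B) := by
  intro l hl hYl hdv
  apply h l hl hYl
  have hli : Prime (l : ℤ) := Nat.prime_iff_prime_int.1 hl
  have hc : IsCoprime ((l : ℤ) ^ 2) (d ^ 3) :=
    ((Prime.coprime_iff_not_dvd hli).2 (nd_of_le hYl hd hdY)).pow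
  have e : d * A * (d * B) * (d * A - d * B) = d ^ 3 * (A * B * (A - B)) := by ring
  rw [e] at hdv
  exact hc.dvd_of_dvd_mul_left hdv

lemma ty2_sc {Y : ℕ} {A B : ℤ} (d : ℤ) (h : Ty2 Y A B) : Ty2 Y (d * A) (d * B) := by
  intro f hf hf1 hp
  obtain ⟨⟨l, l1, l2, l3, l4⟩, ⟨l', m1, m2, m3, m4⟩⟩ := h f hf hf1 hp
  refine ⟨⟨l, l1, l2, l3.mul_left _, l4⟩, ⟨l', m1, m2, ?_, m4⟩⟩
  rw [← mul_sub]
  exact m3.mul_left _

/-- the multiple of a pair -/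
def sc (d : ℤ) (t : ℤ × ℤ) : ℤ × ℤ := (d * t.1, d * t.2)

lemma sc_mem {d : ℤ} (hd : d ≠ 0) {X Y : ℕ} (hdY : d.natAbs ≤ Y) {t : ℤ × ℤ} (ht : t ∈ Bx X) :
    sc d t ∈ Bx (Y * X) := by
  rw [mem_Bx] at ht ⊢
  obtain ⟨⟨⟨a1, a2⟩, b1, b2⟩, c1, c2, c3⟩ := ht
  have hdM : |d| ≤ Y := by
    rw [Int.abs_eq_natAbs]
    exact_mod_cast hdY
  have key : ∀ y : ℤ, -(X : ℤ) ≤ y → y ≤ X → |d * y| ≤ ((Y * X : ℕ) : ℤ) := by
    intro y h1 h2
    rw [abs_mul]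
    push_cast
    exact mul_le_mul hdM (abs_le.2 ⟨h1, h2⟩) (abs_nonneg _) (by positivity)
  exact ⟨⟨abs_le.1 (key _ a1 a2), abs_le.1 (key _ b1 b2)⟩, mul_ne_zero hd c1,
    mul_ne_zero hd c2, fun h => c3 (mul_left_cancel₀ hd h)⟩

lemma PP_sc {d : ℤ} (hd : d ≠ 0) {X Y : ℕ} (hdY : d.natAbs ≤ Y) {t : ℤ × ℤ} (ht : t ∈ Bx X) :
    PP Y (one1 (sc d t)) = PP Y (one1 t) := by
  have h1 := Nn_ne ht
  have h2 := Nn_ne (sc_mem hd hdY ht)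
  have e1 : ∀ t : ℤ × ℤ, ∏ i : Fin 1, Nn (one1 t i) = Nn t := fun t => by
    rw [Fin.prod_univ_one]
    rfl
  ext l
  unfold PP
  rw [mem_filter, mem_filter, e1, e1, Nat.mem_primeFactors, Nat.mem_primeFactors]
  constructor
  · rintro ⟨⟨hl, hd', -⟩, hY⟩
    refine ⟨⟨hl, ?_, h1⟩, hY⟩
    have hli : Prime (l : ℤ) := Nat.prime_iff_prime_int.1 hl
    rw [dvd_Nn] at hd' ⊢
    have e : (sc d t).1 * (sc d t).2 * ((sc d t).1 - (sc d t).2) =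
        d ^ 3 * (t.1 * t.2 * (t.1 - t.2)) := by
      unfold sc
      ring
    rw [e] at hd'
    exact (hli.dvd_or_dvd hd').resolve_left fun h => nd_of_le hY hd hdY (hli.dvd_of_dvd_pow h)
  · rintro ⟨⟨hl, hd', -⟩, hY⟩
    refine ⟨⟨hl, ?_, h2⟩, hY⟩
    rw [dvd_Nn] at hd' ⊢
    have e : (sc d t).1 * (sc d t).2 * ((sc d t).1 - (sc d t).2) =
        d ^ 3 * (t.1 * t.2 * (t.1 - t.2)) := by
      unfold sc
      ring
    rw [e]
    exact hd'.mul_left _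

lemma gt_sc {d : ℤ} (hd : d ≠ 0) {X Y Q : ℕ} (hY : 1 ≤ Y) (hX : 1 ≤ X) (hdY : d.natAbs ≤ Y)
    {t : ℤ × ℤ} (ht : t ∈ Bx X) (hG : GT Y X Q (one1 t)) : GT Y (Y * X) Q (one1 (sc d t)) where
  ty1 := fun i => ty1_sc hd hdY (hG.ty1 i)
  ty2 := fun i => ty2_sc d (hG.ty2 i)
  crs := fun i i' h => absurd (Subsingleton.elim i i') h
  pat := by
    rw [PP_sc hd hdY ht]
    exact hG.pat
  sml := by
    rw [PP_sc hd hdY ht]
    refine hG.sml.trans ?_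
    have h1 : (1 : ℝ) ≤ X := by exact_mod_cast hX
    have h2 : (X : ℝ) ≤ ((Y * X : ℕ) : ℝ) := by exact_mod_cast Nat.le_mul_of_pos_left X hY
    exact pow_le_pow_left₀ (Real.log_nonneg h1) (Real.log_le_log (by linarith) h2) _

/-- the prime `q` is good for the pair -/
def Gp (Y : ℕ) (A B : ℤ) (q : ℕ) : Prop :=
  Ty1 Y A B ∧ ∃ s : ℕ → Bool, (∀ e, InS Y A B s e → e = (1, 1)) ∧ GoodQ Y A B s q

lemma Gp.mod {Y : ℕ} {A B : ℤ} {q₀ q : ℕ} (h : Gp Y A B q₀) (hq : q.Prime)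
    (hm : q ≡ q₀ [MOD MM Y A B]) : Gp Y A B q := by
  obtain ⟨h1, s, h2, h3⟩ := h
  exact ⟨h1, s, h2, good_mod h3 hq hm⟩

lemma Gp.sq {Y : ℕ} {A B : ℤ} {q : ℕ} (h : Gp Y A B q) (p : ℕ) [Fact p.Prime] (hp : p ≤ Y) :
    IsSquare ((q : ℤ) : ℚ_[p]) := by
  obtain ⟨-, s, -, h3⟩ := h
  exact goodq_sq h3 p hp

lemma Gp.pr {Y : ℕ} {A B : ℤ} {q : ℕ} (h : Gp Y A B q) : q.Prime := by
  obtain ⟨-, s, -, h3⟩ := h
  exact h3.pr

lemma Gp.nz {Y : ℕ} {A B : ℤ} {q : ℕ} (h : Gp Y A B q) : A * B * (A - B) ≠ 0 := by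
  obtain ⟨-, s, -, h3⟩ := h
  exact fun h0 => h3.nd (h0 ▸ dvd_zero _)

/-- the class of a good prime is a reduced class -/
lemma Gp.cop {Y : ℕ} {A B : ℤ} {q : ℕ} (h : Gp Y A B q) : 0 < MM Y A B ∧
    q.Coprime (MM Y A B) := by
  have hN := h.nz
  obtain ⟨-, s, -, h3⟩ := h
  refine ⟨?_, ?_⟩
  · unfold MM
    have h1 := Nat.factorial_pos Y
    have h2 := Int.natAbs_pos.2 hN
    positivity
  have hY : Y < q := by
    by_contra hcon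
    push Not at hcon
    have h8 := h3.m8
    have h1 := h3.sm q h3.pr (by omega) hcon
    have : NeZero q := ⟨h3.pr.ne_zero⟩
    have h5 : jacobiSym (q : ℤ) q = 0 := by
      rw [jacobiSym.eq_zero_iff_not_coprime]
      simp [h3.pr.ne_one]
    rw [h5] at h1
    norm_num at h1
  rw [h3.pr.coprime_iff_not_dvd]
  intro hd
  unfold MM at hd
  rcases (h3.pr.dvd_mul).1 hd with hd | hd
  · rcases (h3.pr.dvd_mul).1 hd with hd | hd
    · have h1 : q ∣ 2 ^ 3 := by exact_mod_cast hd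
      have h2 := (Nat.prime_dvd_prime_iff_eq h3.pr Nat.prime_two).1 (h3.pr.dvd_of_dvd_pow h1)
      have h8 := h3.m8
      omega
    · have := (h3.pr.dvd_factorial).1 hd
      omega
  · exact h3.nd (Int.natCast_dvd.2 hd)

/-- **Good primes for all the small twists of a typical pair.** -/
theorem exists_gp {X Y Q : ℕ} (hY : 2 ≤ Y) (hX : 1 ≤ X) {t : ℤ × ℤ} (ht : t ∈ Bx X)
    (hG : GT Y X Q (one1 t)) (hPQ : 0 < (PQ (WY Y) Q).card) {d : ℤ} (hd : d ≠ 0)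
    (hdY : d.natAbs ≤ Y) : ∃ q ∈ PQ (WY Y) Q, Gp Y (d * t.1) (d * t.2) q := by
  have ht' := sc_mem hd hdY ht
  have hG' := gt_sc hd (by omega) hX hdY ht hG
  have hB := mem_Bx.1 ht'
  obtain ⟨s, hs⟩ := exists_signs hY (mul_ne_zero (mul_ne_zero hB.2.1 hB.2.2.1)
    (sub_ne_zero.2 hB.2.2.2)) (hG'.ty2 0)
  have h1 := hG'.pat (kk (one1 (sc d t)) (fun _ => s)) (kk_pm hG' _)
  have h2 : (0 : ℝ) < ((PAT (WY Y) Q (PP Y (one1 (sc d t)))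
      (kk (one1 (sc d t)) (fun _ => s))).card : ℝ) := by
    have h3 : (0 : ℝ) < ((PQ (WY Y) Q).card : ℝ) / 2 := by
      have : (0 : ℝ) < ((PQ (WY Y) Q).card : ℝ) := by exact_mod_cast hPQ
      linarith
    have h4 : (0 : ℝ) < 2 ^ (PP Y (one1 (sc d t))).card := by positivity
    by_contra hcon
    push Not at hcon
    nlinarith
  have h3 : (PAT (WY Y) Q (PP Y (one1 (sc d t))) (kk (one1 (sc d t)) (fun _ => s))).Nonempty := by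
    rw [← card_pos]
    exact_mod_cast h2
  obtain ⟨q, hq⟩ := h3
  have hq' := hq
  unfold PAT at hq'
  exact ⟨q, (mem_filter.1 hq').1, hG'.ty1 0, s, hs,
    goodq_of (mem_TB_one.2 ht') hG' (fun _ => s) hq 0⟩

end Pool.Agent.K1H82.LQ
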