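import Pool.Agent.K1H82.LQ.Gq
import Pool.Agent.Y676.MainB

/-!
# A positive proportion of the primes is good, for all the small multiples of a typical pair
-/

set_option autoImplicit false

namespace Pool.Agent.K1H82.LQ

open Finset
open Pool.Agent.Y676
open Pool.Agent.W307.RT (Cv)


/-- for all the small multiples the proportion of the good patterns is at least `c` -/
def APst (B Y : ℕ) (c : ℝ) (t : ℤ × ℤ) : Prop :=
  ∀ e : ℤ, e ≠ 0 → e.natAbs ≤ B → Pst Y c (sc e t)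

open Classical in
/-- **For almost all pairs the proportion of the good patterns is positive for all the small
multiples.** -/
theorem sc_count (hkey : S_KEY) (hmom : S_MOM) (B : ℕ) (ε : ℝ) (hε : 0 < ε) : ∃ Y0 : ℕ, 2 ≤ Y0 ∧
    ∀ Y : ℕ, Y0 ≤ Y → ∃ c : ℝ, 0 < c ∧ ∃ X0 : ℕ, ∀ X : ℕ, X0 ≤ X →
    (((Bx X).filter (fun t => ¬ APst B Y c t)).card : ℝ) ≤ ε * (X : ℝ) ^ 2 := by
  obtain ⟨K, hK⟩ : ∃ K : ℝ, K = (2 * B + 1) * (B : ℝ) ^ 2 + 1 := ⟨_, rfl⟩
  have hK0 : 0 < K := by rw [hK]; positivity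
  obtain ⟨Y0, hY02, h0⟩ := pos_count hkey hmom (ε / K) (by positivity)
  refine ⟨Y0, hY02, fun Y hYY => ?_⟩
  obtain ⟨c, hc, X0, h1⟩ := h0 Y hYY
  refine ⟨c, hc, X0, fun X hX => ?_⟩
  have hsub : (Bx X).filter (fun t => ¬ APst B Y c t) ⊆
      ((Icc (-(B : ℤ)) B).filter (fun e => e ≠ 0)).biUnion
        (fun e => (Bx X).filter (fun t => ¬ Pst Y c (sc e t))) := by
    intro t ht
    rw [mem_filter] at ht
    obtain ⟨ht1, ht2⟩ := ht
    unfold APst at ht2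
    push Not at ht2
    obtain ⟨e, e0, e1, e2⟩ := ht2
    rw [mem_biUnion]
    refine ⟨e, ?_, mem_filter.2 ⟨ht1, e2⟩⟩
    rw [mem_filter, mem_Icc]
    omega
  have h2 : ∀ e ∈ (Icc (-(B : ℤ)) B).filter (fun e => e ≠ 0),
      (((Bx X).filter (fun t => ¬ Pst Y c (sc e t))).card : ℝ) ≤
        ε / K * ((B : ℝ) ^ 2 * (X : ℝ) ^ 2) := by
    intro e he
    rw [mem_filter, mem_Icc] at he
    obtain ⟨⟨b1, b2⟩, e0⟩ := he
    have hB : e.natAbs ≤ B := by omega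
    have hB1 : 1 ≤ B := by
      have := Int.natAbs_pos.2 e0
      omega
    have hle : ((Bx X).filter (fun t => ¬ Pst Y c (sc e t))).card ≤
        ((Bx (B * X)).filter (fun t => ¬ Pst Y c t)).card := by
      apply card_le_card_of_injOn (sc e)
      · intro t ht
        rw [mem_coe, mem_filter] at ht
        rw [mem_coe, mem_filter]
        exact ⟨sc_mem e0 hB ht.1, ht.2⟩
      · intro t _ t' _ h
        have h1 : e * t.1 = e * t'.1 := congrArg Prod.fst h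
        have h2 : e * t.2 = e * t'.2 := congrArg Prod.snd h
        exact Prod.ext (mul_left_cancel₀ e0 h1) (mul_left_cancel₀ e0 h2)
    have h3 := h1 (B * X) (hX.trans (Nat.le_mul_of_pos_left X hB1))
    have h4 : (((Bx X).filter (fun t => ¬ Pst Y c (sc e t))).card : ℝ) ≤
        (((Bx (B * X)).filter (fun t => ¬ Pst Y c t)).card : ℝ) := by exact_mod_cast hle
    refine h4.trans (h3.trans (le_of_eq ?_))
    push_cast
    ring
  have h3 := (card_le_card hsub).trans card_biUnion_le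
  have h4 : (((Bx X).filter (fun t => ¬ APst B Y c t)).card : ℝ) ≤
      ∑ e ∈ (Icc (-(B : ℤ)) B).filter (fun e => e ≠ 0),
        (((Bx X).filter (fun t => ¬ Pst Y c (sc e t))).card : ℝ) := by exact_mod_cast h3
  refine h4.trans ((sum_le_sum h2).trans ?_)
  rw [sum_const, nsmul_eq_mul]
  have h5 : (((Icc (-(B : ℤ)) B).filter (fun e => e ≠ 0)).card : ℝ) ≤ 2 * B + 1 := by
    have h6 : ((Icc (-(B : ℤ)) B).filter (fun e => e ≠ 0)).card ≤ 2 * B + 1 := by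
      refine (card_filter_le _ _).trans (le_of_eq ?_)
      rw [Int.card_Icc]
      omega
    exact_mod_cast h6
  have h6 : (0 : ℝ) ≤ ε / K * ((B : ℝ) ^ 2 * (X : ℝ) ^ 2) := by positivity
  refine (mul_le_mul_of_nonneg_right h5 h6).trans ?_
  have h7 : (2 * (B : ℝ) + 1) * (ε / K * ((B : ℝ) ^ 2 * (X : ℝ) ^ 2)) =
      ε * (X : ℝ) ^ 2 * (((2 * B + 1) * (B : ℝ) ^ 2) / K) := by ring
  rw [h7]
  have h8 : ((2 * (B : ℝ) + 1) * (B : ℝ) ^ 2) / K ≤ 1 := by
    rw [div_le_one hK0, hK]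
    linarith
  have h9 : (0 : ℝ) ≤ ε * (X : ℝ) ^ 2 := by positivity
  nlinarith

/-- many good primes for the small multiples of a typical pair -/
theorem many_gp {X Y Q : ℕ} {c : ℝ} (hc : 0 < c) (hY : 2 ≤ Y) (hX : 1 ≤ X) {t : ℤ × ℤ}
    (ht : t ∈ Bx X) (hG : GT Y X Q (Pool.Agent.K1H97.WA.one1 t)) {d : ℤ} (hd : d ≠ 0)
    (hdY : d.natAbs ≤ Y)
    (hP : Pst Y c (sc d t)) : ∃ S : Finset ℕ,
      (∀ q ∈ S, q ≤ Q ∧ Gp Y (d * t.1) (d * t.2) q) ∧
      c / 2 * (PQ (WY Y) Q).card ≤ (S.card : ℝ) := by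
  have hG' := gt_sc hd (by omega) hX hdY ht hG
  obtain ⟨S, s1, s2⟩ := many_good2 hc (Pool.Agent.K1H97.WA.mem_TB_one.2 (sc_mem hd hdY ht)) hG'
    (fun _ => hP)
  refine ⟨S, fun q hq => ⟨(s1 q hq).2.1, hG'.ty1 0, (s1 q hq).2.2 0⟩, ?_⟩
  rwa [pow_one] at s2

/-- many good primes for all the small multiples -/
def Many (B Q : ℕ) (κ : ℝ) (t : ℤ × ℤ) : Prop := ∃ Y : ℕ, B ≤ Y ∧ 2 ≤ Y ∧
  ∀ e : ℤ, e ≠ 0 → e.natAbs ≤ B → ∃ S : Finset ℕ,
    (∀ q ∈ S, q ≤ Q ∧ Gp Y (e * t.1) (e * t.2) q) ∧ κ * Q / Real.log Q ≤ (S.card : ℝ)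

open Classical in
/-- **Almost all curves have many good primes for all the small multiples.** -/
theorem famQ (hkey : S_KEY) (hmom : S_MOM) (B : ℕ) (ε : ℝ) (hε : 0 < ε) : ∃ κ : ℝ, 0 < κ ∧
    ∃ H0 : ℕ, ∀ H : ℕ, H0 ≤ H → ∀ Q : ℕ, (Real.log H) ^ (CE 1) ≤ Q →
    (((Cv 2 H).filter (fun c => ¬ Many B Q κ (Ab c))).card : ℝ) ≤ ε * ((Cv 2 H).card : ℝ) := by
  obtain ⟨K, hK, hT⟩ := transfer 1
  obtain ⟨δ, hδ⟩ : ∃ δ : ℝ, δ = ε / (2 * (K + 1)) := ⟨_, rfl⟩
  have hδ0 : 0 < δ := by rw [hδ]; positivity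
  obtain ⟨Y1, hY12, hY1⟩ := box_all 1 δ hδ0
  obtain ⟨Y2, hY22, hY2⟩ := sc_count hkey hmom B (δ / (((1 : ℕ) + 1) * 9 ^ 1)) (by positivity)
  obtain ⟨Y, hY⟩ : ∃ Y : ℕ, Y = max (max Y1 Y2) B := ⟨_, rfl⟩
  have hYY1 : Y1 ≤ Y := by rw [hY]; exact (le_max_left _ _).trans (le_max_left _ _)
  have hYY2 : Y2 ≤ Y := by rw [hY]; exact (le_max_right _ _).trans (le_max_left _ _)
  have hYB : B ≤ Y := by rw [hY]; exact le_max_right _ _
  have hYge : 2 ≤ Y := hY12.trans hYY1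
  obtain ⟨X1, hX1⟩ := hY1 Y hYY1
  obtain ⟨c, hc, X2, hX2⟩ := hY2 Y hYY2
  have hW0 : 0 < WY Y := by unfold WY; have := Nat.factorial_pos Y; positivity
  obtain ⟨c', Q0, hc', hpnt⟩ := Pool.Agent.Y157.SH.pnt (WY Y) hW0
  refine ⟨c / 2 * c', by positivity, ?_⟩
  have tL : Filter.Tendsto (fun X : ℕ => Real.log (X : ℝ)) Filter.atTop Filter.atTop :=
    Real.tendsto_log_atTop.comp tendsto_natCast_atTop_atTop
  obtain ⟨H1, hH1⟩ := Filter.eventually_atTop.1 ((tL.eventually_ge_atTop 1).and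
    (tL.eventually_ge_atTop (Q0 + 2)))
  obtain ⟨H2, hH2⟩ := hT (X1 + X2 + 2)
  refine ⟨H1 + H2, fun H hH Q hQ => ?_⟩
  obtain ⟨b1, b3⟩ := hH1 H (by omega)
  obtain ⟨T, a1, a2, a3, a4⟩ := hH2 H (by omega)
  have hT0 : (0 : ℝ) < T := by exact_mod_cast (by omega : 0 < T)
  have hlogTH : Real.log T ≤ Real.log H := Real.log_le_log hT0 (by exact_mod_cast a2)
  have hlogT0 : 0 ≤ Real.log T := Real.log_nonneg (by exact_mod_cast (by omega : 1 ≤ T))
  have hQT : (Real.log T) ^ (CE 1) ≤ 2 * Q := by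
    have h1 : (Real.log T) ^ (CE 1) ≤ (Real.log H) ^ (CE 1) := pow_le_pow_left₀ hlogT0 hlogTH _
    have h2 : (0 : ℝ) ≤ Q := Nat.cast_nonneg _
    linarith
  have hQQ : ((Q0 : ℝ) + 2) ≤ Q := by
    have e1 : Real.log H ≤ (Real.log H) ^ (CE 1) := le_self_pow₀ b1 (by unfold CE; omega)
    linarith
  have hQ0 : Q0 ≤ Q := by
    have : (Q0 : ℝ) ≤ Q := by linarith
    exact_mod_cast this
  -- the exceptional pairs of the box
  let p : (Fin 1 → ℤ × ℤ) → Prop := fun t => ¬ GT Y T Q t ∨ ∃ i, ¬ APst B Y c (t i)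
  have hp : (((TB 1 T).filter p).card : ℝ) ≤ 2 * δ * (T : ℝ) ^ (2 * 1) := by
    have hsub : (TB 1 T).filter p ⊆ (TB 1 T).filter (fun t => ¬ GT Y T Q t) ∪
        univ.biUnion (fun i : Fin 1 => (TB 1 T).filter (fun t => ¬ APst B Y c (t i))) := by
      intro t ht
      rw [mem_filter] at ht
      rw [mem_union, mem_filter, mem_biUnion]
      rcases ht.2 with h | ⟨i, h⟩
      · exact Or.inl ⟨ht.1, h⟩
      · exact Or.inr ⟨i, mem_univ _, mem_filter.2 ⟨ht.1, h⟩⟩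
    have h1 := (card_le_card hsub).trans ((card_union_le _ _).trans
      (Nat.add_le_add_left card_biUnion_le _))
    have h2 : (((TB 1 T).filter p).card : ℝ) ≤ (((TB 1 T).filter (fun t => ¬ GT Y T Q t)).card : ℝ) +
        ∑ i : Fin 1, (((TB 1 T).filter (fun t => ¬ APst B Y c (t i))).card : ℝ) := by
      exact_mod_cast h1
    have h3 := hX1 T (by omega) Q hQT
    have h4 : ∀ i ∈ (univ : Finset (Fin 1)), (((TB 1 T).filter
        (fun t => ¬ APst B Y c (t i))).card : ℝ) ≤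
        δ / (((1 : ℕ) + 1) * 9 ^ 1) * 9 ^ 1 * (T : ℝ) ^ (2 * 1) := fun i _ =>
      tup_one T (by omega) (fun x => ¬ APst B Y c x) i _ (hX2 T (by omega))
    have h5 := sum_le_sum h4
    rw [sum_const, card_univ, Fintype.card_fin, nsmul_eq_mul] at h5
    have h6 : ((1 : ℕ) : ℝ) * (δ / (((1 : ℕ) + 1) * 9 ^ 1) * 9 ^ 1 * (T : ℝ) ^ (2 * 1)) =
        1 / 2 * (δ * (T : ℝ) ^ (2 * 1)) := by
      push_cast
      ring
    have h8 : 0 ≤ δ * (T : ℝ) ^ (2 * 1) := by positivity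
    rw [h6] at h5
    refine (h2.trans (add_le_add h3 h5)).trans ?_
    rw [mul_assoc 2 δ]
    generalize δ * (T : ℝ) ^ (2 * 1) = z at h8 ⊢
    linarith
  have h5 := a4 (2 * δ) (by positivity) p hp
  have h6 : (((Cv 2 H).filter (fun c₁ => ¬ Many B Q (c / 2 * c') (Ab c₁))).card : ℝ) ≤
      (((CT 1 H).filter (fun x => p (fun i => Ab (x i)))).card : ℝ) := by
    have : ((Cv 2 H).filter (fun c₁ => ¬ Many B Q (c / 2 * c') (Ab c₁))).card ≤
        ((CT 1 H).filter (fun x => p (fun i => Ab (x i)))).card := by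
      apply card_le_card_of_injOn (fun c₁ (_ : Fin 1) => c₁)
      · intro c₁ hx
        rw [mem_coe, mem_filter] at hx
        have hmem : (fun (_ : Fin 1) => c₁) ∈ CT 1 H := by
          unfold CT
          rw [Fintype.mem_piFinset]
          exact fun _ => hx.1
        rw [mem_coe, mem_filter]
        refine ⟨hmem, ?_⟩
        by_contra hcon
        change ¬ (¬ GT Y T Q (fun _ => Ab c₁) ∨ ∃ i : Fin 1, ¬ APst B Y c (Ab c₁)) at hcon
        rw [not_or, not_not] at hcon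
        obtain ⟨hG, hP⟩ := hcon
        have hP' : APst B Y c (Ab c₁) := by
          by_contra h
          exact hP ⟨0, h⟩
        apply hx.2
        refine ⟨Y, hYB, hYge, fun e e0 e1 => ?_⟩
        obtain ⟨S, s2, s3⟩ := many_gp hc hYge (by omega)
          (Pool.Agent.K1H97.WA.mem_TB_one.1 (a3 _ hmem)) hG e0 (e1.trans hYB) (hP' e e0 e1)
        refine ⟨S, s2, le_trans ?_ s3⟩
        have h8 := hpnt Q hQ0
        have h9 : 0 ≤ c / 2 := by positivity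
        calc c / 2 * c' * Q / Real.log Q = c / 2 * (c' * Q / Real.log Q) := by ring
          _ ≤ _ := mul_le_mul_of_nonneg_left h8 h9
      · intro x _ y _ hxy
        exact congrFun hxy 0
    exact_mod_cast this
  rw [pow_one] at h5
  refine h6.trans (h5.trans ?_)
  apply mul_le_mul_of_nonneg_right _ (by positivity)
  rw [hδ]
  have e1 : 2 * (ε / (2 * (K + 1))) * K = ε * (K / (K + 1)) := by
    field_simp
  rw [e1]
  have e2 : K / (K + 1) ≤ 1 := by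
    rw [div_le_one (by positivity)]
    linarith
  nlinarith

end Pool.Agent.K1H82.LQ
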