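import Pool.Agent.K1H82.LQ.Cube
import Pool.Agent.K1H82.LQ.Crv
import Pool.Agent.K1H82.LQ.Cnt
import Pool.Agent.K1H82.LQ.Pst

/-!
# Twists and quadratic fields with given completions
-/

set_option autoImplicit false

namespace Pool.Agent.K1H82.LQ

open Finset
open Pool.Agent.Y676
open Pool.Agent.TH841.NF
open Pool.Agent.W307.RT (Cv Sh)
open Pool.Agent.K1H97.WA (pq_one pq_pr LC CC)
open Pool.Agent.K1H97.CU (MM pT Tv)
open Pool.Agent.Y723.QT (SqrtF F2)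

/-- `S` is an infinite set of primes, and for all the products `n` of an odd number of different
elements, `D₀ n` has the completions of `d` and the property. -/
def Odds (M : ℕ) (P : ℤ → Prop) (D₀ d : ℤ) (S : Set ℕ) : Prop :=
  S.Infinite ∧ (∀ s ∈ S, s.Prime) ∧ ∀ T : Finset ℕ, (T : Set ℕ) ⊆ S → Odd T.card →
    SameAt M (D₀ * pT T) d ∧ P (D₀ * pT T)

lemma Odds.mono {M : ℕ} {P P' : ℤ → Prop} {D₀ d : ℤ} {S : Set ℕ} (h : Odds M P D₀ d S)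
    (hp : ∀ D : ℤ, D ≠ 0 → P D → P' D) : Odds M P' D₀ d S := by
  obtain ⟨s1, s3, s4⟩ := h
  refine ⟨s1, s3, fun T hT hod => ?_⟩
  obtain ⟨g1, g2⟩ := s4 T hT hod
  exact ⟨g1, hp _ g1.ne.1 g2⟩

open Classical in
/-- For every nonzero `d` there is a small `D₀` such that many primes up to `Q` are in such sets. -/
def Wq (M Q : ℕ) (κ : ℝ) (P : ℤ → Prop) : Prop :=
  ∀ d : ℤ, d ≠ 0 → ∃ D₀ : ℤ, |D₀| ≤ 8 * (M : ℤ) ^ 2 ∧
    κ * Q / Real.log Q ≤ (((Icc 1 Q).filter (fun q => ∃ S : Set ℕ, q ∈ S ∧ Odds M P D₀ d S)).card : ℝ)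

lemma Wq.mono {M Q : ℕ} {κ : ℝ} {P P' : ℤ → Prop} (h : Wq M Q κ P)
    (hp : ∀ D : ℤ, D ≠ 0 → P D → P' D) : Wq M Q κ P' := by
  classical
  intro d hd
  obtain ⟨D₀, h1, h2⟩ := h d hd
  refine ⟨D₀, h1, h2.trans (Nat.cast_le.2 (card_le_card fun q hq => ?_))⟩
  rw [mem_filter] at hq ⊢
  obtain ⟨hq1, S, hq2, hq3⟩ := hq
  exact ⟨hq1, S, hq2, hq3.mono hp⟩

/-- For every nonzero `d` there are a small `D₀` and a small prime `q` in such a set. -/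
def Ws (M : ℕ) (B : ℝ) (P : ℤ → Prop) : Prop :=
  ∀ d : ℤ, d ≠ 0 → ∃ (D₀ : ℤ) (q : ℕ) (S : Set ℕ), (|D₀| : ℤ) * (q : ℝ) ≤ B ∧ q ∈ S ∧
    Odds M P D₀ d S

lemma Ws.mono {M : ℕ} {B : ℝ} {P P' : ℤ → Prop} (h : Ws M B P)
    (hp : ∀ D : ℤ, D ≠ 0 → P D → P' D) : Ws M B P' := by
  intro d hd
  obtain ⟨D₀, q, S, h1, h2, h3⟩ := h d hd
  exact ⟨D₀, q, S, h1, h2, h3.mono hp⟩

lemma abs_le_of_natAbs {e : ℤ} {n : ℕ} (h : e.natAbs ≤ n) : |e| ≤ n := by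
  rw [Int.abs_eq_natAbs]
  exact_mod_cast h

/-- the twists of a typical curve ordered by height -/
lemma wq_of {M : ℕ} (hM : 0 < M) {Q H : ℕ} {κ : ℝ} {c : ℤ × ℤ} (hc : c ∈ Cv 2 H)
    (h : Many (8 * M ^ 2) Q κ (Ab c)) :
    Wq M Q κ (fun D => Tv (Sh (D ^ 2 * c.1) (D ^ 3 * c.2))) := by
  classical
  intro d hd
  obtain ⟨Y, hYM, hY, hm⟩ := h
  obtain ⟨e, e0, e1, e2⟩ := exists_rep M hM d hd
  obtain ⟨S, s1, s2⟩ := hm e e0 e1
  have hpr := pr_EE hc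
  refine ⟨e, by exact_mod_cast abs_le_of_natAbs e1,
    s2.trans (Nat.cast_le.2 (card_le_card fun q hq => ?_))⟩
  obtain ⟨q1, q2⟩ := s1 q hq
  rw [mem_filter, mem_Icc]
  refine ⟨⟨q2.pr.one_lt.le, q1⟩, ?_⟩
  obtain ⟨S', t1, t2, t3, t4⟩ := Gp.cubeS hY hpr.rt q2
  refine ⟨S', t2, t1, t3, fun T hT hod => ?_⟩
  obtain ⟨⟨g1, g2⟩, g3⟩ := t4 T hT hod
  refine ⟨e2.mul g1 fun p hp hpM => g2 p ?_, g3⟩
  have h1 : p ≤ M := Nat.le_of_dvd hM hpM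
  nlinarith

/-- the curve has finitely many rational points and no element of order two in `Ш`, and the same for
its twist by `D`; over `ℚ(√D)` it is settled -/
structure PK (a b D : ℤ) : Prop where
  tw : Pool.Agent.K1H97.WA.Tr ((D * a : ℤ) : ℚ) ((D * b : ℤ) : ℚ)
  qf : ∀ (K : Type) [Field K] [NumberField K], SqrtF D K → Settled (EK K a b)

/-- the twists of a typical pair -/
lemma ws_pair {M : ℕ} (hM : 0 < M) {Y Z X Q : ℕ} (hYM : 8 * M ^ 2 ≤ Y) (hY : 2 ≤ Y)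
    (hX : 1 ≤ X) (hR : 32 * (M : ℝ) ^ 2 ≤ Real.log Z) (hQ : (Q : ℝ) ≤ 2 * (Real.log Z) ^ (CE 1))
    {t : ℤ × ℤ} (ht : t ∈ Bx X) (hG : GT Y X Q (Pool.Agent.K1H97.WA.one1 t))
    (hPQ : 0 < (PQ (WY Y) Q).card) : ∃ q₁ ∈ PQ (WY Y) Q,
      Pool.Agent.K1H97.WA.Tr (((q₁ : ℤ) * t.1 : ℤ) : ℚ) (((q₁ : ℤ) * t.2 : ℤ) : ℚ) ∧
      Ws M ((Real.log Z) ^ CC) (PK ((q₁ : ℤ) * t.1) ((q₁ : ℤ) * t.2)) := by
  have hYpos : 1 ≤ Y := by omega
  obtain ⟨q₁, hq₁, hg₁⟩ := exists_gp hY hX ht hG hPQ (d := 1) one_ne_zero (by simpa using hYpos)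
  rw [one_mul, one_mul] at hg₁
  have t1 := hg₁.trE hY
  refine ⟨q₁, hq₁, t1, fun d hd => ?_⟩
  have hq1p := hg₁.pr
  have hq1z : (q₁ : ℤ) ≠ 0 := by exact_mod_cast hq1p.ne_zero
  obtain ⟨e, e0, e1, e2⟩ := exists_rep M hM d hd
  obtain ⟨q, hqQ, hq₀⟩ := exists_gp hY hX ht hG hPQ e0 (e1.trans hYM)
  have hple : ∀ p : ℕ, p ∣ M → p ≤ Y := by
    intro p hpM
    have h1 : p ≤ M := Nat.le_of_dvd hM hpM
    nlinarith
  rw [mem_Bx] at ht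
  obtain ⟨-, h1, h2, h3⟩ := ht
  obtain ⟨S, s1, s2, s3, s4⟩ := hq₀.cube hY
  refine ⟨e * q₁, q, S, ?_, s2, s1, s3, fun T hT hod => ?_⟩
  · obtain ⟨L, hL⟩ : ∃ L : ℝ, L = Real.log Z := ⟨_, rfl⟩
    rw [← hL] at hR hQ ⊢
    have hM1 : (1 : ℝ) ≤ M := by exact_mod_cast hM
    have hL1 : 1 ≤ L := by nlinarith
    have b1 : (q₁ : ℝ) ≤ Q := by exact_mod_cast (pq_pr hq₁).2.2
    have b2 : (q : ℝ) ≤ Q := by exact_mod_cast (pq_pr hqQ).2.2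
    have b3 : ((|e| : ℤ) : ℝ) ≤ 8 * (M : ℝ) ^ 2 := by
      have := abs_le_of_natAbs e1
      exact_mod_cast this
    rw [abs_mul, Nat.abs_cast]
    push_cast
    have b4 : (0 : ℝ) ≤ Q := Nat.cast_nonneg _
    have b5 : (q₁ : ℝ) * q ≤ Q * Q := mul_le_mul b1 b2 (Nat.cast_nonneg _) b4
    have b6 : (Q : ℝ) * Q ≤ (2 * L ^ (CE 1)) * (2 * L ^ (CE 1)) := mul_le_mul hQ hQ b4
      (b4.trans hQ)
    have b0 : (0 : ℝ) ≤ |(e : ℝ)| := abs_nonneg _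
    have b3' : |(e : ℝ)| ≤ 8 * (M : ℝ) ^ 2 := by
      have := b3
      push_cast at this
      exact this
    calc |(e : ℝ)| * q₁ * q = |(e : ℝ)| * (q₁ * q) := by ring
      _ ≤ 8 * (M : ℝ) ^ 2 * ((2 * L ^ (CE 1)) * (2 * L ^ (CE 1))) :=
        mul_le_mul b3' (b5.trans b6) (by positivity) (by positivity)
      _ = 32 * (M : ℝ) ^ 2 * L ^ (2 * CE 1) := by ring
      _ ≤ L * L ^ (2 * CE 1) := mul_le_mul_of_nonneg_right hR (by positivity)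
      _ = L ^ (2 * CE 1 + 1) := by ring
      _ ≤ L ^ CC := pow_le_pow_right₀ hL1 (by unfold CC; omega)
  obtain ⟨⟨g1, g2⟩, g3⟩ := s4 T hT hod
  have i1 : pT T * (e * t.1) = (e * pT T) * t.1 := by ring
  have i2 : pT T * (e * t.2) = (e * pT T) * t.2 := by ring
  rw [i1, i2] at g3
  have hDz : e * pT T ≠ 0 := mul_ne_zero e0 g1.ne'
  refine ⟨(e2.mul (by exact_mod_cast hq1p.pos) fun p hp hpM => hg₁.sq p (hple p hpM)).mul
    g1 fun p hp hpM => g2 p (hple p hpM), ?_, fun K _ _ hK => ?_⟩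
  · have h4 := g3.scale (r := (q₁ : ℚ)) (by exact_mod_cast hq1z)
    have e3 : ((e * q₁ * pT T * (q₁ * t.1) : ℤ) : ℚ) =
        (q₁ : ℚ) ^ 2 * ((e * pT T * t.1 : ℤ) : ℚ) := by
      push_cast
      ring
    have e4 : ((e * q₁ * pT T * (q₁ * t.2) : ℤ) : ℚ) =
        (q₁ : ℚ) ^ 2 * ((e * pT T * t.2 : ℤ) : ℚ) := by
      push_cast
      ring
    rw [e3, e4]
    exact h4
  · have i3 : e * q₁ * pT T = q₁ * (e * pT T) := by ring
    rw [i3] at hK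
    exact pair_K h1 h2 h3 hq1z hDz t1 g3 K hK

open Classical in
/-- **Almost all curves: all the local classes.** -/
theorem main_all (hkey : S_KEY) (hmom : S_MOM) (M : ℕ) (hM : 0 < M) (ε : ℝ) (hε : 0 < ε) :
    ∃ κ : ℝ, 0 < κ ∧ ∃ H0 : ℕ, ∀ H : ℕ, H0 ≤ H → ∀ Q : ℕ, (Real.log H) ^ CC ≤ Q →
    (((Cv 2 H).filter (fun c => ¬ Wq M Q κ
      (fun D => Tv (Sh (D ^ 2 * c.1) (D ^ 3 * c.2))))).card : ℝ) ≤ ε * ((Cv 2 H).card : ℝ) := by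
  obtain ⟨κ, hκ, H0, h⟩ := famQ hkey hmom (8 * M ^ 2) ε hε
  refine ⟨κ, hκ, H0 + 3, fun H hH Q hQ => ?_⟩
  have h3 : (3 : ℝ) ≤ H := by exact_mod_cast (by omega : 3 ≤ H)
  have hlog : 1 ≤ Real.log H := by
    rw [Real.le_log_iff_exp_le (by linarith)]
    exact (Real.exp_one_lt_d9.le.trans (by norm_num)).trans h3
  have hQ' : (Real.log H) ^ (CE 1) ≤ Q :=
    (pow_le_pow_right₀ hlog (by unfold CC; omega)).trans hQ
  refine le_trans (Nat.cast_le.2 (card_le_card fun c hc => ?_)) (h H (by omega) Q hQ')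
  rw [mem_filter] at hc ⊢
  exact ⟨hc.1, fun h' => hc.2 (wq_of hM hc.1 h')⟩

/-- the property of the pairs -/
def Pr (M X : ℕ) (t : ℤ × ℤ) : Prop :=
  Pool.Agent.K1H97.WA.Tr ((t.1 : ℤ) : ℚ) ((t.2 : ℤ) : ℚ) ∧ Ws M ((Real.log X) ^ CC) (PK t.1 t.2)

open Classical in
/-- **Many curves with given local conditions: all the local classes.** -/
theorem main_pairs (M : ℕ) (hM : 0 < M) (a₀ b₀ : ℤ) (α β δ : ℝ) (hδ : 0 < δ) :
    ∃ X0 : ℕ, ∀ X : ℕ, X0 ≤ X → (X : ℝ) ^ 2 / (Real.log X) ^ CC ≤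
      (((Bx X).filter (fun t => LC M a₀ b₀ α β δ t ∧ Pr M X t)).card : ℝ) :=
  countP M hM a₀ b₀ α β δ hδ (8 * M ^ 2) (32 * (M : ℝ) ^ 2) (Pr M)
    (fun _ _ _ _ hY1 hY hX hR hQ _ ht hG hPQ => ws_pair hM hY1 hY hX hR hQ ht hG hPQ)

/-- a trivial twist in the sense of `Tv` is trivial in the sense of `QT.Tr` -/
lemma trS_of {A B : ℤ} (h : Tv (Sh A B)) : Pool.Agent.Y723.QT.Tr A B := by
  obtain ⟨h1, h2⟩ := h
  constructor
  · have : Finite (Sh A B).toAffine.Point := h1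
    unfold Pool.Agent.TH841.SH.D.rk
    exact Module.finrank_eq_zero_iff_isTorsion.2 (isAddTorsion_iff_isTorsion_int.1
      (isAddTorsion_of_finite (G := (Sh A B).toAffine.Point)))
  · intro k
    induction k with
    | zero => intro x hx; exact hx
    | succ k ih =>
      intro x hx
      apply ih
      apply h2
      rw [← two_nsmul, ← mul_smul, ← pow_succ']
      exact hx

end Pool.Agent.K1H82.LQ
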