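import Pool.Agent.Y723.QT.Crv
import Pool.Agent.Y667.RZ.Sha

/-!
# A positive proportion of the curves is trivial over `ℚ`
-/

set_option autoImplicit false

namespace Pool.Agent.K1H82.LQ

open Finset
open Pool.Agent.W307.RT (Cv Sh)

open Classical in
/-- a positive proportion of the curves is trivial over `ℚ` -/
theorem pos_trivial : ∃ c : ℝ, 0 < c ∧ ∃ H0 : ℕ, ∀ H : ℕ, H0 ≤ H →
    c * ((Cv 2 H).card : ℝ) ≤ (((Cv 2 H).filter (fun t : ℤ × ℤ =>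
      Pool.Agent.Y723.QT.Tr t.1 t.2)).card : ℝ) := by
  obtain ⟨c, hc, H0, h⟩ := Pool.Agent.Y667.RZ.curvesW
  refine ⟨c, hc, H0, fun H hH => ?_⟩
  refine (h H hH).1.trans (Nat.cast_le.2 (card_le_card fun t ht => ?_))
  rw [mem_filter] at ht ⊢
  have ht1 := ht.1
  unfold Cv at ht1
  obtain ⟨_, a1, a2, _, _, a3⟩ := mem_filter.1 ht1
  obtain ⟨g1, g2⟩ := Pool.Agent.Y667.SHA.sha_zero4 a1 a3 ht.2.1 ht.2.2.1.le
  exact ⟨ht.1, g1, fun j x hx => by rw [pow_zero, one_smul]; exact g2 j x hx⟩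

end Pool.Agent.K1H82.LQ
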