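import Pool.Agent.W975.BMX.Two
import Pool.Agent.W335.BMX.Odd

/-!
# Square classes of integers at finitely many places
-/

set_option autoImplicit false

namespace Pool.Agent.K1H82.LQ

/-- `D d` is positive and a square in `ℚ_p` for all the primes `p` dividing `M` -/
def SameAt (M : ℕ) (D d : ℤ) : Prop :=
  0 < D * d ∧ ∀ (p : ℕ) [Fact p.Prime], p ∣ M → IsSquare ((D * d : ℤ) : ℚ_[p])

lemma sq_unit {p : ℕ} [hp : Fact p.Prime] {m n : ℤ} (hm : ¬ (p : ℤ) ∣ m)
    (h : m ≡ n [ZMOD (8 * p : ℤ)]) : IsSquare ((m * n : ℤ) : ℚ_[p]) := by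
  by_cases hp2 : p = 2
  · subst hp2
    have h8 : m % 8 = n % 8 := h.of_mul_right _
    have hm2 : ¬ (2 : ℤ) ∣ m := by exact_mod_cast hm
    exact Pool.Agent.W975.BMX.two1 m n (by omega) h8
  · have hpm : m ≡ n [ZMOD (p : ℤ)] := h.of_mul_left _
    have hn : ¬ (p : ℤ) ∣ n := fun hd => hm (hpm.dvd_iff.2 hd)
    refine Pool.Agent.W335.BMX.odd1 p hp2 m n hm hn ?_
    rw [legendreSym.mod p m, legendreSym.mod p n, hpm]

lemma SameAt.ne {M : ℕ} {D d : ℤ} (h : SameAt M D d) : D ≠ 0 ∧ d ≠ 0 :=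
  ⟨left_ne_zero_of_mul h.1.ne', right_ne_zero_of_mul h.1.ne'⟩

lemma SameAt.refl (M : ℕ) {d : ℤ} (hd : d ≠ 0) : SameAt M d d :=
  ⟨mul_self_pos.2 hd, fun _ _ _ => ⟨d, by push_cast; ring⟩⟩

lemma sq_trans {K : Type} [Field K] {a b c : K} (hb : b ≠ 0) (h1 : IsSquare (a * b))
    (h2 : IsSquare (b * c)) : IsSquare (a * c) := by
  obtain ⟨x, hx⟩ := h1
  obtain ⟨y, hy⟩ := h2
  refine ⟨x * y / b, ?_⟩
  field_simp
  calc a * c * b ^ 2 = (a * b) * (b * c) := by ring
    _ = _ := by rw [hx, hy]; ring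

lemma SameAt.trans {M : ℕ} {a b c : ℤ} (h1 : SameAt M a b) (h2 : SameAt M b c) :
    SameAt M a c := by
  have hb := h1.ne.2
  refine ⟨?_, fun p hp hpM => ?_⟩
  · have h3 := mul_pos h1.1 h2.1
    have h4 : a * b * (b * c) = (a * c) * b ^ 2 := by ring
    rw [h4] at h3
    exact (mul_pos_iff_of_pos_right (by positivity)).1 h3
  · have g1 := h1.2 p hpM
    have g2 := h2.2 p hpM
    push_cast at g1 g2 ⊢
    exact sq_trans (by exact_mod_cast hb) g1 g2

/-- multiplication by a positive integer that is a local square -/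
lemma SameAt.mul {M : ℕ} {a b : ℤ} (h : SameAt M a b) {q : ℤ} (hq : 0 < q)
    (hs : ∀ (p : ℕ) [Fact p.Prime], p ∣ M → IsSquare (q : ℚ_[p])) : SameAt M (a * q) b := by
  refine ⟨?_, fun p hp hpM => ?_⟩
  · have e : a * q * b = (a * b) * q := by ring
    rw [e]
    exact mul_pos h.1 hq
  · have e : ((a * q * b : ℤ) : ℚ_[p]) = ((a * b : ℤ) : ℚ_[p]) * (q : ℚ_[p]) := by
      push_cast
      ring
    rw [e]
    exact (h.2 p hpM).mul (hs p hpM)

/-- **small representatives** -/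
theorem exists_rep (M : ℕ) (hM : 0 < M) (d : ℤ) (hd : d ≠ 0) :
    ∃ e : ℤ, e ≠ 0 ∧ e.natAbs ≤ 8 * M ^ 2 ∧ SameAt M e d := by
  suffices H : ∀ (n : ℕ) (d : ℤ), d ≠ 0 → d.natAbs = n →
      ∃ e : ℤ, e ≠ 0 ∧ e.natAbs ≤ 8 * M ^ 2 ∧ SameAt M e d from H _ d hd rfl
  intro n
  induction n using Nat.strong_induction_on with
  | _ n ih =>
    intro d hd hn
    by_cases h1 : d.natAbs ≤ 8 * M ^ 2
    · exact ⟨d, hd, h1, SameAt.refl M hd⟩
    push Not at h1
    have step : ∀ d' : ℤ, d' ≠ 0 → d'.natAbs < n → SameAt M d' d →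
        ∃ e : ℤ, e ≠ 0 ∧ e.natAbs ≤ 8 * M ^ 2 ∧ SameAt M e d := by
      intro d' h0 hlt hs
      obtain ⟨e, e1, e2, e3⟩ := ih _ hlt d' h0 rfl
      exact ⟨e, e1, e2, e3.trans hs⟩
    by_cases h2 : ∃ p : ℕ, p.Prime ∧ p ∣ M ∧ (p : ℤ) ^ 2 ∣ d
    · obtain ⟨p, hp, -, d', hd'⟩ := h2
      have hp0 : (p : ℤ) ≠ 0 := by exact_mod_cast hp.ne_zero
      have h0 : d' ≠ 0 := by
        rintro rfl
        exact hd (by rw [hd', mul_zero])
      refine step d' h0 ?_ ⟨?_, fun l _ _ => ?_⟩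
      · rw [← hn, hd', Int.natAbs_mul, Int.natAbs_pow, Int.natAbs_natCast]
        have h3 : 0 < d'.natAbs := Int.natAbs_pos.2 h0
        have h4 : 2 ≤ p ^ 2 := by nlinarith [hp.two_le]
        nlinarith
      · rw [hd']
        have e : d' * ((p : ℤ) ^ 2 * d') = (p * d') * (p * d') := by ring
        rw [e]
        exact mul_self_pos.2 (mul_ne_zero hp0 h0)
      · refine ⟨(p : ℚ_[l]) * (d' : ℚ_[l]), ?_⟩
        rw [hd']
        push_cast
        ring
    · push Not at h2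
      -- the step by `8 M ^ 2`
      obtain ⟨σ, hσ, hσd⟩ : ∃ σ : ℤ, (σ = 1 ∨ σ = -1) ∧ 0 < σ * d := by
        rcases lt_or_gt_of_ne hd with h | h
        · exact ⟨-1, Or.inr rfl, by linarith⟩
        · exact ⟨1, Or.inl rfl, by linarith⟩
      have hσσ : σ * σ = 1 := by rcases hσ with rfl | rfl <;> norm_num
      have hab : (d.natAbs : ℤ) = σ * d := by
        rcases hσ with rfl | rfl <;> omega
      have hbig : ((8 * M ^ 2 : ℕ) : ℤ) < σ * d := by
        rw [← hab]
        exact_mod_cast h1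
      obtain ⟨d', hd'⟩ : ∃ d' : ℤ, d' = d - σ * (8 * (M : ℤ) ^ 2) := ⟨_, rfl⟩
      have hσd' : σ * d' = σ * d - 8 * (M : ℤ) ^ 2 := by
        rw [hd']
        linear_combination (-(8 * (M : ℤ) ^ 2)) * hσσ
      have hpos : 0 < σ * d' := by
        rw [hσd']
        push_cast at hbig
        linarith
      have h0 : d' ≠ 0 := by
        rintro rfl
        simp at hpos
      have hab' : (d'.natAbs : ℤ) = σ * d' := by
        rcases hσ with rfl | rfl <;> omega
      refine step d' h0 ?_ ⟨?_, fun p hpF hpM => ?_⟩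
      · have h5 : (d'.natAbs : ℤ) < d.natAbs := by
          rw [hab, hab', hσd']
          have : (0 : ℤ) < 8 * (M : ℤ) ^ 2 := by positivity
          linarith
        rw [← hn]
        exact_mod_cast h5
      · have h5 := mul_pos hpos hσd
        have e : σ * d' * (σ * d) = (σ * σ) * (d' * d) := by ring
        rwa [e, hσσ, one_mul] at h5
      · have hp := hpF.out
        obtain ⟨m, hm⟩ := hpM
        have hp2 := h2 p hp ⟨m, hm⟩
        have hpi : Prime (p : ℤ) := Nat.prime_iff_prime_int.1 hp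
        have hMz : (M : ℤ) = p * m := by rw [hm]; push_cast; ring
        by_cases hpd : (p : ℤ) ∣ d
        · obtain ⟨u, hu⟩ := hpd
          have hpu : ¬ (p : ℤ) ∣ u := by
            rintro ⟨w, rfl⟩
            exact hp2 ⟨w, by rw [hu]; ring⟩
          obtain ⟨u', hu'⟩ : ∃ u' : ℤ, u' = u - σ * (8 * p * (m : ℤ) ^ 2) := ⟨_, rfl⟩
          have hd'' : d' = p * u' := by
            rw [hd', hu', hu, hMz]
            ring
          have h6 := sq_unit (p := p) (m := u) (n := u') hpu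
            (Int.modEq_iff_dvd.2 ⟨-(σ * (m : ℤ) ^ 2), by rw [hu']; ring⟩)
          have e : ((d' * d : ℤ) : ℚ_[p]) =
              ((p : ℚ_[p]) * (p : ℚ_[p])) * ((u * u' : ℤ) : ℚ_[p]) := by
            rw [hd'', hu]
            push_cast
            ring
          rw [e]
          exact (IsSquare.mul_self _).mul h6
        · have h6 := sq_unit (p := p) (m := d) (n := d') hpd
            (Int.modEq_iff_dvd.2 ⟨-(σ * (p * (m : ℤ) ^ 2)), by rw [hd', hMz]; ring⟩)
          rw [mul_comm d' d]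
          exact h6

end Pool.Agent.K1H82.LQ
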